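import Mathlib

/-!
Sub-basis-families of a matroid.  We show that the cycle matroid of the complete graph on four
vertices has top h-number 6, while no subfamily of its bases which is the set of bases of a
matroid has top h-number 5.
-/

namespace Pool.Agent.Results.MP_35fef3_co.SubBasisGap

open Finset

/-- The number of independent sets of size `i` of the matroid `M`. -/
noncomputable def numIndep {α : Type} (M : Matroid α) (i : ℕ) : ℕ :=
  {I : Set α | M.Indep I ∧ I.encard = i}.ncard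

/-- The top entry `h_d` of the h-vector of the independence complex of `M`,
`h_d(M) = ∑ i ≤ d, (-1)^(d-i) f_(i-1)(M)`, where `d` is the rank of `M` and `f_(i-1)(M)` is the
number of independent sets of size `i`. -/
noncomputable def hTop {α : Type} (M : Matroid α) : ℤ :=
  ∑ i ∈ range (M.eRank.toNat + 1), (-1) ^ (M.eRank.toNat - i) * (numIndep M i : ℤ)

/-- the sixteen spanning trees of K4 -/
def bsL : List (Finset (Fin 6)) := [{0, 1, 2}, {0, 1, 4}, {0, 1, 5}, {0, 2, 3}, {0, 2, 5}, {0, 3, 4}, {0, 3, 5}, {0, 4, 5}, {1, 2, 3}, {1, 2, 4}, {1, 3, 4}, {1, 3, 5}, {1, 4, 5}, {2, 3, 4}, {2, 3, 5}, {2, 4, 5}]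

def bs (l : Fin 16) : Finset (Fin 6) := bsL.getD l.val ∅

/-- exchange constraints, by level -/
def cons : ℕ → List (ℕ × ℕ × ℕ)
  | 0 => [(0, 5, 2), (0, 5, 8), (0, 6, 4), (0, 6, 24), (0, 7, 6), (0, 7, 16), (0, 10, 2), (0, 10, 768), (0, 11, 4), (0, 11, 256), (0, 12, 6), (0, 12, 512), (0, 13, 8), (0, 13, 768), (0, 14, 24), (0, 14, 256), (0, 15, 16), (0, 15, 512), (1, 3, 1), (1, 4, 5), (1, 8, 1), (1, 14, 5), (2, 3, 1), (2, 8, 1), (2, 9, 3), (2, 13, 3), (3, 1, 1), (3, 2, 17), (3, 9, 1), (3, 12, 17), (4, 1, 1), (4, 8, 9), (4, 9, 1), (4, 10, 9), (5, 0, 2), (5, 0, 8), (6, 0, 8), (6, 0, 20), (7, 0, 2), (7, 0, 20), (8, 1, 513), (8, 2, 1), (8, 4, 1), (8, 7, 513), (9, 2, 1), (9, 3, 257), (9, 4, 1), (9, 6, 257), (10, 0, 256), (10, 0, 514), (11, 0, 4), (11, 0, 256), (12, 0, 4), (12, 0, 514), (13, 0, 264), (13, 0, 512), (14, 0, 16), (14, 0, 264), (15, 0, 16), (15, 0, 512)]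
  | 1 => [(1, 3, 32), (1, 4, 128), (1, 6, 4), (1, 6, 160), (1, 8, 1536), (1, 11, 4), (1, 11, 5120), (1, 13, 32), (1, 13, 1536), (1, 14, 160), (1, 14, 5632), (1, 15, 128), (1, 15, 4608), (2, 5, 2), (2, 10, 2), (3, 1, 32), (4, 1, 132), (5, 2, 130), (5, 9, 2), (5, 12, 130), (6, 1, 32), (6, 1, 132), (7, 8, 34), (7, 9, 2), (7, 10, 34), (8, 1, 1024), (9, 2, 4098), (9, 5, 1026), (9, 6, 5122), (9, 7, 4098), (10, 2, 4098), (10, 4, 4610), (10, 7, 4098), (11, 1, 1024), (11, 1, 4100), (12, 3, 1538), (12, 5, 1026), (13, 1, 512), (13, 1, 1056), (14, 1, 2112), (14, 1, 8456), (14, 1, 32784), (15, 1, 512), (15, 1, 4224)]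
  | 2 => [(2, 3, 80), (2, 5, 192), (2, 8, 2048), (2, 9, 4096), (2, 10, 6144), (2, 13, 208), (2, 13, 6144), (2, 14, 80), (2, 14, 2048), (2, 15, 144), (2, 15, 4096), (3, 2, 64), (4, 10, 196), (4, 11, 68), (4, 12, 132), (5, 2, 64), (6, 9, 148), (6, 12, 132), (7, 8, 84), (7, 11, 68), (8, 2, 2048), (10, 2, 2048), (11, 4, 4), (11, 7, 4100), (12, 3, 2052), (12, 4, 4), (12, 6, 2052), (13, 2, 1056), (13, 2, 16648), (13, 2, 33280), (14, 2, 16), (14, 2, 2112), (15, 2, 16), (15, 2, 4224)]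
  | 3 => [(3, 7, 16), (3, 7, 96), (3, 9, 8448), (3, 10, 32), (3, 10, 8448), (3, 11, 64), (3, 11, 16640), (3, 12, 96), (3, 12, 24832), (3, 15, 16), (3, 15, 24576), (4, 5, 8), (4, 13, 8), (5, 4, 72), (5, 8, 8), (5, 14, 72), (6, 8, 8), (6, 9, 40), (6, 13, 40), (7, 3, 32), (7, 3, 80), (8, 4, 16392), (8, 5, 8200), (8, 6, 16392), (8, 7, 24584), (9, 3, 8192), (10, 3, 256), (10, 3, 8224), (11, 3, 256), (11, 3, 16448), (12, 3, 32896), (13, 4, 16392), (13, 6, 16392), (14, 5, 8200), (15, 3, 8192), (15, 3, 16400)]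
  | 4 => [(4, 5, 192), (4, 8, 16384), (4, 9, 32768), (4, 10, 49152), (4, 11, 16384), (4, 12, 32768), (4, 13, 49152), (5, 4, 128), (6, 15, 144), (7, 14, 80), (9, 4, 32768), (10, 4, 2304), (10, 4, 8224), (11, 4, 16448), (12, 4, 32896), (13, 4, 32768), (14, 7, 32784), (15, 6, 16400)]
  | 5 => [(5, 8, 9216), (5, 9, 9216), (5, 11, 64), (5, 11, 1024), (5, 12, 1024), (5, 14, 8192), (5, 15, 128), (5, 15, 8192), (6, 10, 32), (7, 13, 32), (8, 5, 1024), (9, 5, 8192), (10, 6, 32), (10, 7, 32), (11, 5, 64), (11, 5, 1024), (12, 5, 128), (13, 6, 32), (13, 7, 32), (14, 5, 64), (15, 5, 128), (15, 5, 8192)]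
  | 6 => [(6, 8, 18432), (6, 9, 18432), (6, 10, 2048), (6, 12, 2048), (6, 13, 16384), (6, 15, 16384), (8, 6, 2048), (9, 6, 40960), (10, 6, 2048), (11, 7, 64), (12, 6, 128), (14, 7, 64), (15, 6, 128)]
  | 7 => [(7, 8, 36864), (7, 9, 36864), (7, 10, 4096), (7, 11, 4096), (7, 13, 32768), (7, 14, 32768), (8, 7, 3072), (9, 7, 32768), (13, 7, 32768)]
  | 8 => [(8, 12, 512), (8, 12, 3072), (8, 15, 512), (8, 15, 24576), (9, 11, 256), (9, 14, 256), (10, 14, 2304), (11, 9, 1280), (11, 13, 1280), (12, 8, 1536), (12, 8, 2048), (13, 11, 16640), (14, 9, 8448), (14, 10, 8448), (15, 8, 8704), (15, 8, 16384)]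
  | 9 => [(9, 11, 5120), (9, 14, 40960), (10, 15, 4608), (11, 9, 4096), (12, 13, 1536), (13, 12, 33280), (14, 9, 32768), (15, 10, 8704)]
  | 10 => [(10, 14, 8192), (10, 15, 8192), (13, 11, 1024), (13, 12, 1024), (14, 10, 2048), (15, 10, 4096)]
  | 11 => [(11, 13, 16384), (11, 15, 4096), (11, 15, 16384), (12, 14, 2048), (14, 12, 2048), (15, 11, 4096), (15, 11, 16384)]
  | 12 => [(12, 13, 32768), (12, 14, 32768), (14, 12, 32768)]
  | 13 => []
  | 14 => []
  | 15 => []
  | _ => []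

/-- for the sets `I` of size `i`, the mask of all bases containing `I` -/
def masks : ℕ → List ℕ
  | 0 => [65535]
  | 1 => [255, 7943, 58137, 28008, 46754, 55508]
  | 2 => [7, 25, 104, 162, 212, 769, 3328, 5634, 6148, 24840, 41472, 49168, 9248, 18496, 36992]
  | 3 => [1, 0, 2, 4, 8, 0, 16, 32, 64, 128, 256, 512, 0, 1024, 2048, 4096, 8192, 16384, 32768, 0]
  | _ => []

def cnt (i u : ℕ) : ℕ := ((masks i).filter (fun m => !(Nat.beq (Nat.land u m) 0))).length

def fin (u : ℕ) : Bool := !(Nat.beq (cnt 3 u + cnt 1 u) (cnt 2 u + cnt 0 u + 5))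

def sat (k u : ℕ) (c : ℕ × ℕ × ℕ) : Bool :=
  !(Nat.testBit u (c.1 - k)) || (!(Nat.testBit u (c.2.1 - k)) ||
    !(Nat.beq (Nat.land u (Nat.shiftRight c.2.2 k)) 0))

def search : ℕ → ℕ → Bool
  | 0, u => !((cons 0).all (sat 0 u)) || fin u
  | k + 1, u => !((cons (k + 1)).all (sat (k + 1) u)) ||
      (search k (2 * u) && search k (2 * u + 1))

theorem search_ok : search 16 0 = true := by decide +kernel

theorem search_sound : ∀ (k u m : ℕ), search k u = true → m >>> k = u →
    (∀ j ≤ k, ∀ c ∈ cons j, sat j (m >>> j) c = true) → fin m = true := by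
  intro k
  induction k with
  | zero =>
    intro u m h hu hs
    have h0 : m = u := by simpa using hu
    subst h0
    have hall : (cons 0).all (sat 0 m) = true := by
      rw [List.all_eq_true]
      intro c hc
      simpa using hs 0 le_rfl c hc
    simpa [search, hall] using h
  | succ k ih =>
    intro u m h hu hs
    have hall : (cons (k + 1)).all (sat (k + 1) u) = true := by
      rw [List.all_eq_true]
      intro c hc
      have := hs (k + 1) le_rfl c hc
      rwa [hu] at this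
    have h2 : (search k (2 * u) && search k (2 * u + 1)) = true := by
      simpa [search, hall] using h
    rw [Bool.and_eq_true] at h2
    have hh : (m >>> k) / 2 = u := by
      rw [← hu, Nat.shiftRight_succ]
    have hcases : m >>> k = 2 * u ∨ m >>> k = 2 * u + 1 := by omega
    rcases hcases with hc | hc
    · exact ih (2 * u) m h2.1 hc (fun j hj => hs j (by omega))
    · exact ih (2 * u + 1) m h2.2 hc (fun j hj => hs j (by omega))

theorem land_ne_zero {a b l : ℕ} (ha : a.testBit l = true) (hb : b.testBit l = true) :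
    Nat.land a b ≠ 0 := by
  intro h
  have : (a &&& b).testBit l = true := by rw [Nat.testBit_and, ha, hb]; rfl
  have h' : a &&& b = 0 := h
  rw [h'] at this
  simp at this

theorem exists_of_land {a b : ℕ} (h : Nat.land a b ≠ 0) :
    ∃ l, a.testBit l = true ∧ b.testBit l = true := by
  have h' : a &&& b ≠ 0 := h
  obtain ⟨l, hl⟩ := Nat.exists_testBit_of_ne_zero h'
  rw [Nat.testBit_and, Bool.and_eq_true] at hl
  exact ⟨l, hl.1, hl.2⟩

theorem dec_beq (a : ℕ) : decide (a ≠ 0) = !(Nat.beq a 0) := by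
  cases a <;> rfl

/-- every listed constraint is a consequence of basis exchange -/
theorem cons_ok : ∀ k < 17, ∀ c ∈ cons k, k ≤ c.1 ∧ k ≤ c.2.1 ∧ c.1 < 16 ∧ c.2.1 < 16 ∧
    ∃ x ∈ bsL.getD c.1 ∅ \ bsL.getD c.2.1 ∅, ∀ y ∈ bsL.getD c.2.1 ∅ \ bsL.getD c.1 ∅,
      ∀ l : Fin 16, bs l = insert y ((bsL.getD c.1 ∅).erase x) →
        k ≤ l.val ∧ Nat.testBit c.2.2 l.val = true := by
  decide +kernel

theorem bs_exch : ∀ l l' : Fin 16, ∀ x ∈ bs l \ bs l', ∃ y ∈ bs l' \ bs l,
    ∃ l'' : Fin 16, bs l'' = insert y ((bs l).erase x) := by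
  decide +kernel

theorem bs_card : ∀ l : Fin 16, (bs l).card = 3 := by decide +kernel

def maskOf (I : Finset (Fin 6)) : ℕ := Nat.ofBits (fun l : Fin 16 => decide (I ⊆ bs l))

theorem masks_ok : ∀ i < 4, ((powersetCard i (univ : Finset (Fin 6))).val.map maskOf) =
    (↑(masks i) : Multiset ℕ) := by
  decide +kernel

open Classical in
/-- the mask of the set of bases of `N` -/
noncomputable def maskM (N : Matroid (Fin 6)) : ℕ :=
  Nat.ofBits (fun l : Fin 16 => decide (N.IsBase (bs l : Set (Fin 6))))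

theorem testBit_maskM (N : Matroid (Fin 6)) (l : Fin 16) :
    (maskM N).testBit l.val = true ↔ N.IsBase (bs l : Set (Fin 6)) := by
  unfold maskM
  rw [Nat.testBit_ofBits_lt _ _ l.isLt]
  simp

theorem lt_of_testBit_maskM (N : Matroid (Fin 6)) (l : ℕ) (h : (maskM N).testBit l = true) :
    l < 16 := by
  by_contra hl
  unfold maskM at h
  rw [Nat.testBit_ofBits_ge _ _ (by omega)] at h
  simp at h

section

variable (N : Matroid (Fin 6)) (hN : ∀ B, N.IsBase B → ∃ l : Fin 16, B = ↑(bs l))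

include hN

theorem sat_ok : ∀ j ≤ 16, ∀ c ∈ cons j, sat j (maskM N >>> j) c = true := by
  intro j hj c hc
  obtain ⟨h1, h2, h3, h4, x, hx, hy⟩ := cons_ok j (by omega) c hc
  unfold sat
  rw [Nat.testBit_shiftRight, Nat.testBit_shiftRight, Nat.add_sub_cancel' h1,
    Nat.add_sub_cancel' h2]
  by_cases hb1 : (maskM N).testBit c.1 = true
  · by_cases hb2 : (maskM N).testBit c.2.1 = true
    · rw [hb1, hb2]
      have e1 := (testBit_maskM N ⟨c.1, h3⟩).1 hb1
      have e2 := (testBit_maskM N ⟨c.2.1, h4⟩).1 hb2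
      have hx' : x ∈ ((bs ⟨c.1, h3⟩ : Finset (Fin 6)) : Set (Fin 6)) \
          ((bs ⟨c.2.1, h4⟩ : Finset (Fin 6)) : Set (Fin 6)) := by
        rw [← coe_sdiff]; exact_mod_cast hx
      obtain ⟨y, hyy, hB⟩ := e1.exchange e2 hx'
      obtain ⟨l, hl⟩ := hN _ hB
      have hyy' : y ∈ bsL.getD c.2.1 ∅ \ bsL.getD c.1 ∅ := by
        rw [← coe_sdiff] at hyy; exact_mod_cast hyy
      have hset : bs l = insert y ((bsL.getD c.1 ∅).erase x) := by
        apply Finset.coe_injective
        rw [← hl, coe_insert, coe_erase]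
        rfl
      obtain ⟨q1, q2⟩ := hy y hyy' l hset
      have hbl : (maskM N).testBit l.val = true := by
        rw [testBit_maskM, ← hl]; exact hB
      have hne : Nat.land (maskM N >>> j) (Nat.shiftRight c.2.2 j) ≠ 0 := by
        apply land_ne_zero (l := l.val - j)
        · rw [Nat.testBit_shiftRight, Nat.add_sub_cancel' q1]; exact hbl
        · show (c.2.2 >>> j).testBit (l.val - j) = true
          rw [Nat.testBit_shiftRight, Nat.add_sub_cancel' q1]; exact q2
      have hf : Nat.beq (Nat.land (maskM N >>> j) (Nat.shiftRight c.2.2 j)) 0 = false := by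
        rw [← Bool.not_eq_true]
        intro hh
        exact hne (Nat.eq_of_beq_eq_true hh)
      rw [hf]; rfl
    · simp [hb2]
  · simp [hb1]

theorem fin_ok : fin (maskM N) = true :=
  search_sound 16 0 (maskM N) search_ok (by
    apply Nat.eq_of_testBit_eq
    intro i
    rw [Nat.testBit_shiftRight]
    simp only [Nat.zero_testBit]
    rw [← Bool.not_eq_true]
    intro h
    have := lt_of_testBit_maskM N _ h
    omega) (sat_ok N hN)

theorem indep_iff' (I : Finset (Fin 6)) :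
    N.Indep (I : Set (Fin 6)) ↔ Nat.land (maskM N) (maskOf I) ≠ 0 := by
  rw [Matroid.indep_iff]
  constructor
  · rintro ⟨B, hB, hI⟩
    obtain ⟨l, rfl⟩ := hN B hB
    apply land_ne_zero (l := l.val)
    · rw [testBit_maskM]; exact hB
    · unfold maskOf
      rw [Nat.testBit_ofBits_lt _ _ l.isLt]
      simpa using hI
  · intro h
    obtain ⟨l, h1, h2⟩ := exists_of_land h
    have hl := lt_of_testBit_maskM N l h1
    refine ⟨_, (testBit_maskM N ⟨l, hl⟩).1 h1, ?_⟩
    unfold maskOf at h2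
    rw [Nat.testBit_ofBits_lt _ _ hl] at h2
    simpa using h2

theorem numIndep_eq (i : ℕ) (hi : i < 4) : numIndep N i = cnt i (maskM N) := by
  classical
  unfold numIndep
  have h1 : {I : Set (Fin 6) | N.Indep I ∧ I.encard = i} =
      (fun I : Finset (Fin 6) => (I : Set (Fin 6))) ''
        (((powersetCard i (univ : Finset (Fin 6))).filter
          (fun I => Nat.land (maskM N) (maskOf I) ≠ 0) : Finset (Finset (Fin 6))) :
            Set (Finset (Fin 6))) := by
    ext I
    simp only [Set.mem_ofPred_eq, Set.mem_image, coe_filter, mem_powersetCard_univ]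
    constructor
    · rintro ⟨h, hc⟩
      refine ⟨(Set.toFinite I).toFinset, ⟨?_, ?_⟩, Set.Finite.coe_toFinset _⟩
      · rw [← Set.ncard_eq_toFinset_card I (Set.toFinite I)]
        rw [Set.ncard, hc]; simp
      · have h' := (indep_iff' N hN (Set.toFinite I).toFinset).1
        rw [Set.Finite.coe_toFinset] at h'
        exact h' h
    · rintro ⟨J, ⟨hJ, hm⟩, rfl⟩
      refine ⟨(indep_iff' N hN J).2 hm, ?_⟩
      rw [Set.encard_coe_eq_coe_finsetCard, hJ]
  rw [h1, Set.ncard_image_of_injective _ Finset.coe_injective, Set.ncard_coe_finset]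
  unfold cnt
  have h2 := congrArg (Multiset.countP (fun m => Nat.land (maskM N) m ≠ 0)) (masks_ok i hi)
  rw [Multiset.countP_map] at h2
  rw [Finset.card_def, Finset.filter_val]
  rw [h2, Multiset.coe_countP, List.countP_eq_length_filter]
  congr 1
  apply List.filter_congr
  intro m _
  exact dec_beq _

theorem eRank_eq : N.eRank.toNat = 3 := by
  obtain ⟨B, hB⟩ := N.exists_isBase
  obtain ⟨l, rfl⟩ := hN B hB
  rw [← hB.encard_eq_eRank, Set.encard_coe_eq_coe_finsetCard, bs_card]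
  rfl

theorem hTop_eq : hTop N = (cnt 3 (maskM N) : ℤ) - cnt 2 (maskM N) + cnt 1 (maskM N)
    - cnt 0 (maskM N) := by
  unfold hTop
  rw [eRank_eq N hN]
  simp only [Finset.sum_range_succ, Finset.sum_range_zero]
  rw [numIndep_eq N hN 0 (by norm_num), numIndep_eq N hN 1 (by norm_num),
    numIndep_eq N hN 2 (by norm_num), numIndep_eq N hN 3 (by norm_num)]
  norm_num
  ring

theorem hTop_ne : hTop N ≠ 5 := by
  rw [hTop_eq N hN]
  have h := fin_ok N hN
  unfold fin at h
  intro h5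
  have h6 : cnt 3 (maskM N) + cnt 1 (maskM N) = cnt 2 (maskM N) + cnt 0 (maskM N) + 5 := by
    omega
  rw [h6] at h
  have : Nat.beq (cnt 2 (maskM N) + cnt 0 (maskM N) + 5) (cnt 2 (maskM N) + cnt 0 (maskM N) + 5)
    = true := Nat.beq_refl _
  rw [this] at h
  simp at h

end

/-- The cycle matroid of K4. -/
noncomputable def MK4 : Matroid (Fin 6) :=
  Matroid.ofIsBaseOfFinite (E := Set.univ) Set.finite_univ
    (fun B => ∃ l : Fin 16, B = ((bs l : Finset (Fin 6)) : Set (Fin 6)))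
    ⟨_, 0, rfl⟩
    (by
      rintro _ _ ⟨l, rfl⟩ ⟨l', rfl⟩ x hx
      rw [← coe_sdiff] at hx
      obtain ⟨y, hy, l'', h⟩ := bs_exch l l' x (by exact_mod_cast hx)
      refine ⟨y, ?_, l'', ?_⟩
      · rw [← coe_sdiff]; exact_mod_cast hy
      · rw [h, coe_insert, coe_erase])
    (fun _ _ => Set.subset_univ _)

theorem MK4_isBase (B : Set (Fin 6)) :
    MK4.IsBase B ↔ ∃ l : Fin 16, B = ((bs l : Finset (Fin 6)) : Set (Fin 6)) := Iff.rfl

theorem maskM_MK4 : maskM MK4 = 65535 := by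
  apply Nat.eq_of_testBit_eq
  intro i
  by_cases hi : i < 16
  · have h1 : (maskM MK4).testBit i = true := (testBit_maskM MK4 ⟨i, hi⟩).2 ⟨⟨i, hi⟩, rfl⟩
    rw [h1]
    interval_cases i <;> rfl
  · have h1 : (maskM MK4).testBit i = false := by
      rw [← Bool.not_eq_true]
      intro h
      exact hi (lt_of_testBit_maskM _ _ h)
    rw [h1]
    symm
    apply Nat.testBit_lt_two_pow
    calc 65535 < 2 ^ 16 := by norm_num
      _ ≤ 2 ^ i := Nat.pow_le_pow_right (by norm_num) (by omega)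

theorem hTop_MK4 : hTop MK4 = 6 := by
  rw [hTop_eq MK4 (fun B hB => hB), maskM_MK4]
  decide +kernel

/-- There is a matroid `M` (of rank 3 on 6 elements, all of them in the ground set) with top
h-number `h_d(M) ≥ 1` such that no matroid `N` all of whose bases are bases of `M` has
`h_d(N) = h_d(M) - 1`. -/
theorem result : ∃ M : Matroid (Fin 6), M.E = Set.univ ∧ M.eRank = 3 ∧ 1 ≤ hTop M ∧
    ∀ N : Matroid (Fin 6), (∀ B, N.IsBase B → M.IsBase B) → hTop N ≠ hTop M - 1 := by
  refine ⟨MK4, rfl, ?_, ?_, ?_⟩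
  · have hB : MK4.IsBase ((bs 0 : Finset (Fin 6)) : Set (Fin 6)) := ⟨0, rfl⟩
    rw [← hB.encard_eq_eRank, Set.encard_coe_eq_coe_finsetCard, bs_card]
    rfl
  · rw [hTop_MK4]; norm_num
  · intro N hN
    rw [hTop_MK4]
    have := hTop_ne N (fun B hB => hN B hB)
    intro h
    exact this (by rw [h]; norm_num)

end Pool.Agent.Results.MP_35fef3_co.SubBasisGap
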